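import Pool.Agent.Helper29.UG.Props

/-!
# MP_b55b7c_an, uniform property Gamma: the martingale (packet UG-Mart)
-/

open scoped ENNReal NNReal InnerProductSpace ComplexOrder
open Filter Topology

attribute [-instance] CStarMatrix.instAlgebra CStarMatrix.instModule CStarMatrix.instSMul
  CStarMatrix.instMulAction CStarMatrix.instDistribMulAction

noncomputable section
namespace RC
universe u

section
variable {A : Type u} [CStarAlgebra A] [PartialOrder A] [StarOrderedRing A]

/-- `y - y²` is positive for `0 ≤ y ≤ 1`. -/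
theorem mart_sub_sq_nonneg {y : A} (h0 : 0 ≤ y) (h1 : y ≤ 1) : 0 ≤ y - y * y := by
  have hs : star y = y := (IsSelfAdjoint.of_nonneg h0).star_eq
  have h1' : 0 ≤ 1 - y := sub_nonneg.2 h1
  have a := star_left_conjugate_nonneg h1' y
  have b := star_left_conjugate_nonneg h0 (1 - y)
  have hs' : star (1 - y) = 1 - y := by rw [star_sub, star_one, hs]
  rw [hs] at a
  rw [hs'] at b
  have e : y - y * y = y * (1 - y) * y + (1 - y) * y * (1 - y) := by noncomm_ring
  rw [e]
  exact add_nonneg a b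

/-- `y - y² ≤ 1` for `0 ≤ y ≤ 1`. -/
theorem mart_sub_sq_le {y : A} (h0 : 0 ≤ y) (h1 : y ≤ 1) : y - y * y ≤ 1 := by
  have hs : star y = y := (IsSelfAdjoint.of_nonneg h0).star_eq
  have a := star_mul_self_nonneg y
  rw [hs] at a
  exact (sub_le_self y a).trans h1

end

/-- The martingale argument. -/
theorem mart (hN : N2P.{u}) (hS : StepP.{u}) : MartP.{u} := by
  intro A _ _ _ G α v hv hv1 hE F ε hε
  -- the constants
  obtain ⟨e0, he0, he01, he0ε⟩ : ∃ e0 : ℝ, 0 < e0 ∧ e0 ≤ 1 / 2 ∧ 2 * e0 ≤ ε ^ 2 := by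
    refine ⟨min ε 1 ^ 2 / 2, by positivity, ?_, ?_⟩
    · have : min ε 1 ≤ 1 := min_le_right _ _
      have h0 : 0 ≤ min ε 1 := by positivity
      nlinarith
    · have : min ε 1 ≤ ε := min_le_left _ _
      have h0 : 0 ≤ min ε 1 := by positivity
      nlinarith
  have hw : 0 < v * e0 ^ 4 := by positivity
  obtain ⟨K, hK⟩ := exists_nat_ge (1 / (v * e0 ^ 4))
  have hKpos : (0 : ℝ) < K := lt_of_lt_of_le (by positivity) hK
  have hKw : 1 ≤ K * (v * e0 ^ 4) := by
    rwa [div_le_iff₀ hw] at hK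
  obtain ⟨ε', hε', h1, h2, h3, h4, h5⟩ : ∃ ε' : ℝ, 0 < ε' ∧ ε' ≤ 1 ∧ 40 * ε' ≤ v * e0 ^ 4 ∧
      5 * K * ε' ≤ e0 ∧ 3 ^ K * ε' ≤ ε ∧ K * ε' ≤ ε := by
    refine ⟨min 1 (min (v * e0 ^ 4 / 40) (min (e0 / (5 * K)) (min (ε / 3 ^ K) (ε / K)))),
      by positivity, min_le_left _ _, ?_, ?_, ?_, ?_⟩
    · have : min 1 (min (v * e0 ^ 4 / 40) (min (e0 / (5 * K)) (min (ε / 3 ^ K) (ε / K)))) ≤
          v * e0 ^ 4 / 40 := (min_le_right _ _).trans (min_le_left _ _)
      linarith
    · have : min 1 (min (v * e0 ^ 4 / 40) (min (e0 / (5 * K)) (min (ε / 3 ^ K) (ε / K)))) ≤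
          e0 / (5 * K) := (min_le_right _ _).trans ((min_le_right _ _).trans (min_le_left _ _))
      rw [le_div_iff₀ (by positivity)] at this
      linarith
    · have : min 1 (min (v * e0 ^ 4 / 40) (min (e0 / (5 * K)) (min (ε / 3 ^ K) (ε / K)))) ≤
          ε / 3 ^ K := (min_le_right _ _).trans ((min_le_right _ _).trans
            ((min_le_right _ _).trans (min_le_left _ _)))
      rw [le_div_iff₀ (by positivity)] at this
      linarith
    · have : min 1 (min (v * e0 ^ 4 / 40) (min (e0 / (5 * K)) (min (ε / 3 ^ K) (ε / K)))) ≤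
          ε / K := (min_le_right _ _).trans ((min_le_right _ _).trans
            ((min_le_right _ _).trans (min_le_right _ _)))
      rw [le_div_iff₀ (by positivity)] at this
      linarith
  -- the induction
  have key : ∀ k : ℕ, ∃ y : A, (∀ g, α g y = y) ∧ 0 ≤ y ∧ y ≤ 1 ∧ ∀ φ : TState A, Inv α φ →
      ((φ.φ (y - y * y)).re ≤ e0 + 5 * k * ε' ∨
        (φ.φ (y - y * y)).re ≤ 1 / 4 - k * (v * e0 ^ 4 / 2 - 5 * ε')) ∧
      ∀ z ∈ F, ‖φ.φ (y * z) - φ.φ z / 2‖ ≤ k * ε' ∧
        n2 φ (y * z - z * y) ≤ (3 ^ k - 1) * ε' := by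
    intro k
    induction k with
    | zero =>
      refine ⟨(1 / 2 : ℝ) • (1 : A), ?_, ?_, ?_, ?_⟩
      · intro g
        have : ((1 / 2 : ℝ) • (1 : A)) = ((1 / 2 : ℝ) : ℂ) • (1 : A) :=
          (Complex.coe_smul _ _).symm
        rw [this, map_smul, map_one]
      · exact smul_nonneg (by norm_num) zero_le_one
      · calc (1 / 2 : ℝ) • (1 : A) ≤ (1 : ℝ) • (1 : A) :=
              smul_le_smul_of_nonneg_right (by norm_num) zero_le_one
          _ = 1 := one_smul _ _
      · intro φ hφ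
        have hc : ((1 / 2 : ℝ) • (1 : A)) = ((1 / 2 : ℝ) : ℂ) • (1 : A) :=
          (Complex.coe_smul _ _).symm
        refine ⟨Or.inr ?_, ?_⟩
        · have e : φ.φ ((1 / 2 : ℝ) • (1 : A) - (1 / 2 : ℝ) • (1 : A) * (1 / 2 : ℝ) • (1 : A)) =
              ((1 / 4 : ℝ) : ℂ) := by
            rw [hc, smul_mul_smul_comm, mul_one, map_sub, map_smul, map_smul, φ.one]
            simp only [smul_eq_mul, mul_one]
            push_cast
            norm_num
          rw [e]
          simp
        · intro z hz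
          rw [hc]
          constructor
          · rw [smul_mul_assoc, one_mul, map_smul]
            have : ((1 / 2 : ℝ) : ℂ) • φ.φ z - φ.φ z / 2 = 0 := by
              rw [smul_eq_mul]
              push_cast
              ring
            rw [this]
            simp
          · have : ((1 / 2 : ℝ) : ℂ) • (1 : A) * z - z * ((1 / 2 : ℝ) : ℂ) • (1 : A) = 0 := by
              rw [smul_mul_assoc, one_mul, mul_smul_comm, mul_one, sub_self]
            rw [this]
            simp [n2]
    | succ k ih =>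
      obtain ⟨y, hy1, hy2, hy3, hy4⟩ := ih
      obtain ⟨y', hi, h0, h1', hy'⟩ := hS A G α v hv hv1 hE F ε' hε' h1 y hy1 hy2 hy3
      refine ⟨y', hi, h0, h1', ?_⟩
      intro φ hφ
      obtain ⟨ht, hz⟩ := hy4 φ hφ
      obtain ⟨ht', hz'⟩ := hy' φ hφ
      set t := (φ.φ (y - y * y)).re with htdef
      constructor
      · by_cases hc : t ≤ e0 + 5 * k * ε'
        · left
          have : 0 ≤ v / 2 * t ^ 4 := by positivity
          push_cast
          linarith
        · right
          have ht2 : t ≤ 1 / 4 - k * (v * e0 ^ 4 / 2 - 5 * ε') := by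
            rcases ht with h | h
            · exact absurd h hc
            · exact h
          have ht3 : e0 ≤ t := by
            have : 0 ≤ 5 * (k : ℝ) * ε' := by positivity
            linarith [not_le.1 hc]
          have ht4 : e0 ^ 4 ≤ t ^ 4 := pow_le_pow_left₀ he0.le ht3 4
          have : v / 2 * e0 ^ 4 ≤ v / 2 * t ^ 4 := mul_le_mul_of_nonneg_left ht4 (by positivity)
          push_cast
          linarith
      · intro z hzF
        obtain ⟨a1, a2⟩ := hz z hzF
        obtain ⟨b1, b2⟩ := hz' z hzF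
        constructor
        · calc ‖φ.φ (y' * z) - φ.φ z / 2‖ =
                ‖(φ.φ (y' * z) - φ.φ (y * z)) + (φ.φ (y * z) - φ.φ z / 2)‖ := by
                  congr 1; ring
            _ ≤ ‖φ.φ (y' * z) - φ.φ (y * z)‖ + ‖φ.φ (y * z) - φ.φ z / 2‖ := norm_add_le _ _
            _ ≤ ε' + k * ε' := add_le_add b1 a1
            _ = ((k + 1 : ℕ) : ℝ) * ε' := by push_cast; ring
        · calc n2 φ (y' * z - z * y') ≤ 3 * n2 φ (y * z - z * y) + ε' := b2
            _ ≤ 3 * ((3 ^ k - 1) * ε') + ε' := by linarith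
            _ ≤ (3 ^ (k + 1) - 1) * ε' := by
                rw [pow_succ]
                nlinarith
  obtain ⟨y, hi, h0, h1', hy⟩ := key K
  refine ⟨y, hi, h0, h1', ?_⟩
  intro φ hφ
  obtain ⟨ht, hz⟩ := hy φ hφ
  constructor
  · have ht' : (φ.φ (y - y * y)).re ≤ 2 * e0 := by
      rcases ht with h | h
      · linarith
      · nlinarith
    have hw0 : 0 ≤ y - y * y := mart_sub_sq_nonneg h0 h1'
    have hw1 : y - y * y ≤ 1 := mart_sub_sq_le h0 h1'
    have hws : star (y - y * y) = y - y * y := (IsSelfAdjoint.of_nonneg hw0).star_eq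
    have hle : (φ.φ (star (y - y * y) * (y - y * y))).re ≤ (φ.φ (y - y * y)).re := by
      refine (hN A φ).2.2.2 _ _ ?_
      rw [hws]
      exact sub_nonneg.1 (mart_sub_sq_nonneg hw0 hw1)
    have : (φ.φ (star (y - y * y) * (y - y * y))).re ≤ ε ^ 2 := by linarith
    exact (Real.sqrt_le_sqrt this).trans (Real.sqrt_sq hε.le).le
  · intro z hzF
    obtain ⟨a1, a2⟩ := hz z hzF
    refine ⟨a2.trans ?_, a1.trans h5⟩
    linarith

end RC
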